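import Mathlib
import Pool.Agent.H76.KF.Main
import Pool.Agent.H76.KF.Data
import Pool.Agent.H76.KF.Orders
import Pool.Graph.R_seed8.Y789.SG.ExistF

set_option autoImplicit false

/-!
# The `Σ`-Leopoldt conjecture for characters of order 3, 4 and 6 over CM fields of every degree

Let `k` be an imaginary quadratic field which contains the `n`-th roots of unity, so that
`n ∈ {2, 3, 4, 6}`, and `d ≥ 1`. For integers `b_i` and an integer `a` of `k` such that the
`b_i - a = β_i^n` are nonzero `n`-th powers in `k`, and `t ∈ ℤ`, let `F = ℚ(w)` with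
`∏ (w - b_i t) = 1`, `K = F k` and `H = K(α^(1/n))`, `α = w / t - a`.
For all `t` outside a finite set, `F` is totally real of degree `d`, `K` is a CM field, `H / K` is
cyclic of degree `n`, and the `Σ`-Leopoldt conjecture holds for all nontrivial characters of
`Gal(H / K)` and all CM types `Σ`. If `n ≥ 3`, then `H / F` is not abelian, and it is not Galois
if `∏ β_i^n` is not a rational integer.

Proof. Put `θ^n = α`. Then `∏_r (θ - ζ^r β_i) = (w - b_i t) / t`, where `w - b_i t` is a unit.
So the `θ - ζ^r β_i` are units up to powers of rational numbers, and the sums over `r` twisted by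
a nontrivial character do not see the latter. The regulator determinant for a CM type and a
character is a multiple of `det (∑_r ξ^r log (θ_j - ζ_j^r β_i))`, where `j` runs through the CM
type and the `θ_j^n + a_j` are the different roots of `∏_i (x - b_i) = t^(-d)`. The `θ_j`
are analytic functions of `t` near every point of `ℤ_p ∖ 0`, and of a power of `t` times a unit near
`t = 0`, where they have poles. The determinant does not vanish identically near any point, since
the differentials of the logarithms are independent over the algebraic functions, so that a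
relation between the logarithms would have constant coefficients. By compactness of `ℤ_p` the
determinant vanishes only for finitely many `t ∈ ℤ`. For the last statement one
computes the norm of `α c(α)` and `α / c(α)` to `k`; it is not an `n`-th power for large `t`.
-/

namespace Pool.Agent.Results.MP_fc6b1e_nt.KummerFamilies

open NumberField Polynomial Pool.Agent.W289.SL

/-- Distinct integers `b_i` and an integer `a` of `k` such that each `b_i - a` is the `n`-th power
of a nonzero integer `β_i` of `k`. -/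
structure PowData {k : Type} [Field k] (n : ℕ) {d : ℕ} (b : Fin d → ℤ) (a : 𝓞 k)
    (β : Fin d → 𝓞 k) : Prop where
  inj : Function.Injective b
  pow : ∀ i, (b i : 𝓞 k) - a = β i ^ n
  ne : ∀ i, β i ≠ 0

/-- `F = ℚ(w)` where `∏ (w - b_i t) = 1`, and `K` is a quadratic extension of `F` containing
`k`. -/
structure Model (k : Type) [Field k] {d : ℕ} (b : Fin d → ℤ) (t : ℤ) (F K : Type) [Field F]
    [NumberField F] [Field K] [Algebra F K] [Algebra k K] (w : F) : Prop where
  quad : Module.finrank F K = 2
  root : ∏ i, (w - (b i : F) * (t : F)) = 1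
  gen : IntermediateField.adjoin ℚ {w} = ⊤

/-- Let `p` be a prime, `k` an imaginary quadratic field with a primitive `n`-th root of unity,
`n ≥ 2`, and `d ≥ 1`. There are systems `(b, a, β)`, also with `a = 0`, and for `n = 3` also with
`∏ β_i^n ∉ ℤ`. For every system and all `t ∈ ℤ` outside a finite set: the fields
`F = ℚ(w)`, `∏ (w - b_i t) = 1`, and `K = F k` exist; `F` is totally real of degree `d`, `K` is a
CM field; for `α = w / t - a` the polynomial `X^n - α` is irreducible over `K`; if `n ≥ 3`, then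
`α c(α)` is not an `n`-th power in `K`, and `α / c(α)` is not an `n`-th power if `∏ β_i^n ∉ ℤ`;
and for `H = K(α^(1/n))` the `Σ`-Leopoldt statement holds for all nontrivial characters of
`Gal(H / K)` and every CM type `Σ` of `K` with values in `ℂ_p`. -/
theorem result (p : ℕ) [Fact p.Prime] (k : Type) [Field k] [NumberField k] [IsTotallyComplex k]
    (hk : Module.finrank ℚ k = 2) (n : ℕ) (hn : 2 ≤ n) (ζ : k) (hζ : IsPrimitiveRoot ζ n)
    (d : ℕ) (hd : 0 < d) :
    (∃ (b : Fin d → ℤ) (β : Fin d → 𝓞 k), PowData n b 0 β) ∧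
    (n = 3 → ∃ (b : Fin d → ℤ) (a : 𝓞 k) (β : Fin d → 𝓞 k), PowData n b a β ∧
      ∀ m : ℤ, ∏ i, β i ^ n ≠ (m : 𝓞 k)) ∧
    ∀ (b : Fin d → ℤ) (a : 𝓞 k) (β : Fin d → 𝓞 k), PowData n b a β →
      ∃ S₀ : Set ℤ, S₀.Finite ∧ ∀ t : ℤ, t ∉ S₀ →
        (∃ (F K : Type) (_ : Field F) (_ : NumberField F) (_ : Field K) (_ : NumberField K)
          (_ : Algebra F K) (_ : Algebra k K) (w : F), Model k b t F K w) ∧
        ∀ (F K : Type) [Field F] [NumberField F] [Field K] [NumberField K] [Algebra F K]
          [Algebra k K] (w : F), Model k b t F K w →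
          Module.finrank ℚ F = d ∧ IsTotallyReal F ∧ IsTotallyComplex K ∧
          Irreducible (X ^ n - C (algebraMap F K w / (t : K) - algebraMap k K a) : K[X]) ∧
          (3 ≤ n → ∀ c : K ≃ₐ[F] K, c ≠ 1 →
            (∀ γ : K, (algebraMap F K w / (t : K) - algebraMap k K a) *
              c (algebraMap F K w / (t : K) - algebraMap k K a) ≠ γ ^ n) ∧
            ((∀ m : ℤ, ∏ i, β i ^ n ≠ (m : 𝓞 k)) → ∀ γ : K,
              (algebraMap F K w / (t : K) - algebraMap k K a) ≠
                γ ^ n * c (algebraMap F K w / (t : K) - algebraMap k K a))) ∧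
          ∀ (H : Type) [Field H] [NumberField H] [Algebra K H] (θ : H),
            Module.finrank K H = n →
            θ ^ n = algebraMap K H (algebraMap F K w / (t : K) - algebraMap k K a) →
            ∀ S : Set (K →+* ℂ_[p]), IsCMType p F K S →
              ∀ χ : (H ≃ₐ[K] H) →* ℂ_[p]ˣ, χ ≠ 1 → SigmaLeopoldt p K H S χ := by
  refine ⟨?_, ?_, ?_⟩
  · obtain ⟨b, β, h1, h2, h3⟩ := Pool.Agent.H76.KF.exists_data0 (k := k) n d (by omega)
    exact ⟨b, β, h1, h2, h3⟩
  · rintro rfl
    have hint : IsIntegral ℤ ζ := hζ.isIntegral (by norm_num)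
    have hω : ((⟨ζ, hint⟩ : 𝓞 k)) ^ 2 + ⟨ζ, hint⟩ + 1 = 0 := by
      apply RingOfIntegers.ext
      change ζ ^ 2 + ζ + 1 = 0
      have h1 := hζ.geom_sum_eq_zero (by norm_num)
      rw [Finset.sum_range_succ, Finset.sum_range_succ, Finset.sum_range_one, pow_zero,
        pow_one] at h1
      linear_combination h1
    obtain ⟨b, a, β, h1, h2, h3, h4⟩ := Pool.Agent.H76.KF.exists_data3 hω d hd
    exact ⟨b, a, β, ⟨h1, h2, h3⟩, h4⟩
  · intro b a β hs
    obtain ⟨S₀, hS₀, h⟩ := Pool.Agent.H76.KF.main_thm p k hk (by omega) hζ d hd b hs.inj a β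
      hs.pow hs.ne
    have hM : ∃ M : ℤ, 3 ≤ n → ∀ t : ℤ, M ≤ |t| → ∀ (F K : Type) [Field F] [NumberField F]
        [IsTotallyReal F] [Field K] [NumberField K] [IsTotallyComplex K] [Algebra F K]
        [Algebra k K], Module.finrank F K = 2 → Module.finrank ℚ F = d → ∀ w : F,
        ∏ i, (w - (b i : F) * (t : F)) = 1 → IntermediateField.adjoin ℚ {w} = ⊤ →
        ∀ c : K ≃ₐ[F] K, c ≠ 1 → ∀ α : K,
          (t : K) * α = algebraMap F K w - algebraMap k K a * t →
        (∀ γ : K, α * c α ≠ γ ^ n) ∧
        ((∀ m : ℤ, ∏ i, β i ^ n ≠ (m : 𝓞 k)) → ∀ γ : K, α ≠ γ ^ n * c α) := by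
      by_cases h3 : 3 ≤ n
      · obtain ⟨M, hM⟩ := Pool.Agent.H76.KF.nondih_all hk h3 hζ hd b a β hs.pow hs.ne
        exact ⟨M, fun _ => hM⟩
      · exact ⟨0, fun h => absurd h h3⟩
    obtain ⟨M, hM⟩ := hM
    refine ⟨S₀ ∪ Set.Icc (-(|M| + 1)) (|M| + 1), hS₀.union (Set.finite_Icc _ _), ?_⟩
    intro t ht
    rw [Set.mem_union, not_or] at ht
    have ht2 : |M| + 1 < |t| := by
      by_contra hcon
      apply ht.2
      rw [Set.mem_Icc, ← abs_le]
      omega
    have hM0 := abs_nonneg M
    have hM1 := le_abs_self M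
    have ht0 : t ≠ 0 := by
      rintro rfl
      rw [abs_zero] at ht2
      omega
    have hgap : ∀ i j, i ≠ j → 2 ≤ |b i * t - b j * t| := by
      intro i j hij
      have h1 : b i - b j ≠ 0 := sub_ne_zero.2 fun h => hij (hs.inj h)
      have h2 := Int.one_le_abs h1
      rw [← sub_mul, abs_mul]
      nlinarith
    refine ⟨?_, ?_⟩
    · obtain ⟨F, K, i1, i2, i3, i4, i5, i6, w, h1, h2, h3⟩ :=
        Pool.Agent.Y789.SG.exists_fields (k := k) hk d hd (fun i => b i * t) hgap
      refine ⟨F, K, i1, i2, i3, i4, i5, i6, w, ⟨h1, ?_, h3⟩⟩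
      rw [← h2]
      refine Finset.prod_congr rfl fun i _ => ?_
      push_cast
      ring
    · intro F K _ _ _ _ _ _ w hm
      obtain ⟨h1, h2, h3, h4⟩ := h t ht.1 F K w hm.quad hm.root hm.gen
      have htK : (t : K) ≠ 0 := by exact_mod_cast ht0
      have hα : (t : K) * (algebraMap F K w / (t : K) - algebraMap k K a) =
          algebraMap F K w - algebraMap k K a * (t : K) := by
        rw [mul_sub, mul_div_cancel₀ _ htK]
        ring
      obtain ⟨h5, h6⟩ := h4 _ hα
      refine ⟨h1, h2, h3, h5, ?_, h6⟩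
      intro hn3 c hc
      exact hM hn3 t (by omega) F K hm.quad h1 w hm.root hm.gen c hc _ hα

end Pool.Agent.Results.MP_fc6b1e_nt.KummerFamilies
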