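import Mathlib
import Pool.Agent.H76.Q2.CubicMain

set_option autoImplicit false

/-!
# The `Σ`-Leopoldt conjecture for cubic characters of the fields `F(√-3)`, not Galois over `F`

Let `F` be a real quadratic field and `K = F(ω)`, `ω² + ω + 1 = 0`. Let `η` be a unit of `F` of
infinite order, `P` a finite set of primes. For all `M > 0` divisible by some `M₀` let `x = η^M` and
`α = x³ - 3 ω² x² + 3 x - 1`. Then `H = K(α^(1/3))` is cyclic of degree `3` over `K` and not Galois
over `F`, that is, `χ ∘ c ≠ χ` and `χ ∘ c ≠ χ⁻¹`, and the `Σ`-Leopoldt conjecture holds for all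
nontrivial characters of `Gal(H/K)`, all `p ∈ P` and all CM types `Σ`.

Proof. We have `α = (x - 1)³ + ω (√-3)³ x² = (x - ω²)³ - ω² (√-3)³ x`. So with `θ³ = α` the six
numbers `(θ - ω^r (x - 1)) / √-3` and `(θ - ω^r (x - ω²)) / √-3` are units of `H`. The regulator is an
analytic function of `u = σ₁(x)` near `u = 1`, where `σ₂(x) = u⁻¹`. The matrix of the
residues of the logarithmic differentials at a place with `u = 0` is, up to cube roots of unity in the
entries, `(2, 1; 1, 2)`, and so is not singular; hence the regulator does not vanish identically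
(theorem of Ostrowski) and `u = 1` is an isolated zero. For large `M` neither `α` nor `α c(α)` nor
`α² c(α)` is a cube, by Runge's method:
`α c(α) = (x² + x + 4)³ + O(x³)`, `α² c(α) = (x³ + (2 + ω) x² + 6 x + ω - 5)³ + O(x⁵)`.
-/

namespace Pool.Agent.Results.MP_fc6b1e_nt.NonGaloisCubic

open NumberField Polynomial Pool.Agent.W289.SL

/-- Let `F` be a real quadratic field, `K` a totally imaginary quadratic extension of `F` which
contains a root `ω` of `ω² + ω + 1 = 0`, `η` a unit of infinite order of `F` and `P` a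
finite set of primes. There is `M₀` such that for all positive multiples `M` of `M₀`, for
`x = η^M` and `α = x³ - 3 ω² x² + 3 x - 1`: the polynomial `X³ - α` is irreducible over `K`;
`α c(α)` and `α / c(α)` are not cubes in `K`; and for `H = K(α^(1/3))`, all primes `p ∈ P`, all CM
types `Σ` of `K` with values in `ℂ_p` and all nontrivial characters of `Gal(H/K)` the
`Σ`-Leopoldt statement holds. -/
theorem result (F K : Type) [Field F] [NumberField F] [IsTotallyReal F] [Field K] [NumberField K]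
    [IsTotallyComplex K] [Algebra F K] (hF : Module.finrank ℚ F = 2)
    (hFK : Module.finrank F K = 2) (ω : K) (hω : ω ^ 2 + ω + 1 = 0)
    (η : (𝓞 F)ˣ) (hη : ∀ k : ℕ, 0 < k → η ^ k ≠ 1) (P : Finset ℕ) (_hP : ∀ p ∈ P, p.Prime) :
    ∃ M₀ : ℕ, 0 < M₀ ∧ ∀ M : ℕ, 0 < M → M₀ ∣ M → ∀ x : K,
      x = algebraMap F K (((η : 𝓞 F) : F) ^ M) → ∀ α : K,
      α = x ^ 3 - 3 * ω ^ 2 * x ^ 2 + 3 * x - 1 →
      Irreducible (X ^ 3 - C α : K[X]) ∧
      (∀ c : K ≃ₐ[F] K, c ≠ 1 → (∀ γ : K, α * c α ≠ γ ^ 3) ∧ (∀ γ : K, α ≠ γ ^ 3 * c α)) ∧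
      ∀ (H : Type) [Field H] [NumberField H] [Algebra K H] (θ : H),
        Module.finrank K H = 3 → θ ^ 3 = algebraMap K H α →
        ∀ (p : ℕ) [Fact p.Prime], p ∈ P → ∀ S : Set (K →+* ℂ_[p]), IsCMType p F K S →
          ∀ χ : (H ≃ₐ[K] H) →* ℂ_[p]ˣ, χ ≠ 1 → SigmaLeopoldt p K H S χ :=
  Pool.Agent.H76.Q2.cubic_main hF hFK hω η hη P

end Pool.Agent.Results.MP_fc6b1e_nt.NonGaloisCubic
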