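import Mathlib
import Pool.Agent.H76.Q2.Fermat

set_option autoImplicit false

/-!
# The `Σ`-Leopoldt conjecture for anticyclotomic characters over all quartic CM fields with roots
# of unity

Let `F` be a real quadratic field and `K` a totally imaginary quadratic extension of `F` which
contains a primitive `n`-th root of unity `ζ`, `n ≥ 3`. (So `K = F(√-3)` for `n = 3, 6`,
`K = F(i)` for `n = 4`, with an arbitrary `F`, or `K = ℚ(ζ_n)` for `n = 5, 8, 10, 12`.)
Let `η` be a unit of `F` of infinite order and `P` a finite set of primes. For all `M > 0` divisible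
by some `M₀` the extension `H = K(α^(1/n))`, `α = 1 + η^(n M)`, is cyclic of degree `n` and the
`Σ`-Leopoldt conjecture holds for all nontrivial characters `χ` of `Gal(H/K)`, all `p ∈ P` and all
CM types `Σ`. As `α ∈ F`, the characters satisfy `χ ∘ c = χ⁻¹`, and `Gal(H/F)` is dihedral.

Proof. Let `x = η^M`, of norm one over `ℚ`, and `θ^n = α`. The elements `θ - ζ^r` and `θ - ζ^r x`
are units of `H`. Let `σ₁, σ₂` be the embeddings of the CM type and `u = σ₁(x)`, `σ₂(x) = u⁻¹`.
Up to a nonzero factor the regulator of the two units on the `χ`-part is the determinant with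
the entries `∑_r ξ^r log (σ_j(θ) - σ_j(ζ)^r b)`, with `b = 1` and `b = σ_j(x)`. This
is an analytic function of `u` near `u = 1`. It does not vanish identically, because in the function
field of the curve `Y^n = 1 + X^n` the matrix of residues of the logarithmic differentials at a
point with `X = 0` is diagonal with nonzero diagonal entries, after `σ₂(θ)` has been replaced by
`u σ₂(θ)`; a vanishing determinant of primitives has a vanishing determinant of residues (theorem
of Ostrowski). So `u = 1` is an isolated zero, and `u → 1` when `M` is divisible by a high power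
of `p` and by the order of the residue field. That `α` is not a `q`-th power in `K` is seen by
Runge's method: a factor of `γ^q - x^n = 1` would be an integer of norm less than one.
-/

namespace Pool.Agent.Results.MP_fc6b1e_nt.QuarticKummer

open NumberField Polynomial Pool.Agent.W289.SL

/-- Let `F` be a real quadratic field, `K` a totally imaginary quadratic extension of `F` which
contains a primitive `n`-th root of unity, `n ≥ 3`, `η` a unit of infinite order of `F` and `P` a
finite set of primes. There is `M₀` such that for all positive multiples `M` of `M₀` and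
`α = 1 + η^(n M) ∈ F`: the polynomial `X^n - α` is irreducible over `K`, and for `H = K(α^(1/n))`,
for all primes `p ∈ P`, all CM types `Σ` of `K` with values in `ℂ_p` and all nontrivial characters
of `Gal(H/K)` the `Σ`-Leopoldt statement holds. -/
theorem result (F K : Type) [Field F] [NumberField F] [IsTotallyReal F] [Field K] [NumberField K]
    [IsTotallyComplex K] [Algebra F K] (hF : Module.finrank ℚ F = 2)
    (hFK : Module.finrank F K = 2) (n : ℕ) (hn : 3 ≤ n) (ζ : K) (hζ : IsPrimitiveRoot ζ n)
    (η : (𝓞 F)ˣ) (hη : ∀ k : ℕ, 0 < k → η ^ k ≠ 1) (P : Finset ℕ) (hP : ∀ p ∈ P, p.Prime) :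
    ∃ M₀ : ℕ, 0 < M₀ ∧ ∀ M : ℕ, 0 < M → M₀ ∣ M →
      Irreducible (X ^ n - C (algebraMap F K (1 + ((η : 𝓞 F) : F) ^ (n * M))) : K[X]) ∧
      ∀ (H : Type) [Field H] [NumberField H] [Algebra K H] (θ : H),
        Module.finrank K H = n →
        θ ^ n = algebraMap K H (algebraMap F K (1 + ((η : 𝓞 F) : F) ^ (n * M))) →
        ∀ (p : ℕ) [Fact p.Prime], p ∈ P → ∀ S : Set (K →+* ℂ_[p]), IsCMType p F K S →
          ∀ χ : (H ≃ₐ[K] H) →* ℂ_[p]ˣ, χ ≠ 1 → SigmaLeopoldt p K H S χ :=
  Pool.Agent.H76.Q2.fermat_main hF hFK (by omega) hζ η hη P hP

end Pool.Agent.Results.MP_fc6b1e_nt.QuarticKummer
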