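import Pool.Agent.H50.SG.Asm

/-!
# The `Σ`-Leopoldt conjecture for characters of arbitrarily large `p`-power order of every CM field

Let `p` be an odd prime, `F` a totally real number field and `K` a totally complex quadratic extension of `F` in which
`p` is unramified, and let `S` be a `p`-ordinary CM type of `K` with values in `ℂ_p`. Suppose that the conjecture holds for
the trivial character, that is, Leopoldt's conjecture for `F` and `p`; for instance `F / ℚ` is abelian (there is no
other hypothesis on `K`, which need not be normal over `ℚ`, nor on the degree of `F` or the class number).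

Theorem. There is `W`, depending only on `p`, `K` and `S`, such that for all `m` there are infinitely many primes `𝔮` of
`K` with: (a) there are cyclic extensions `H / K` of degree `p ^ m'`, `m' ≥ m`, unramified outside `𝔮`; (b) for ALL
cyclic extensions `H / K` of degree `p ^ m'` which are unramified outside `𝔮` the `Σ`-Leopoldt conjecture holds for the
characters of order `p ^ j` of `Gal(H / K)`, for all but at most `W` of the exponents `j = 1, …, m'`. In particular (c)
there are characters of `K` of arbitrarily large `p`-power order which are ramified only at one prime, for which the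
conjecture holds.

The library has the conjecture for characters of order `p` of composites with abelian fields (`RealAbelianTwists`,
`SigmaComposites`, under the condition that the degree of `F` is prime to `p`), for most characters of order `p` of fields
which contain the `p`-th roots of unity (`MostCharactersOfOrderP`) and for quadratic characters of special families.

Method (project SG of an earlier run, led by its helper 5; the parts are in the library, the assembly is
`Pool.Agent.H50.SG.Asm`). The prime `𝔮 = (π)` is principal with `π` close to `1` at the places above `p` outside `S` and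
close to a fixed element `β` at those in `S`, so that the `𝔮`-units which are close to `1` above `S` are `p`-th powers
(here Leopoldt's conjecture for `F` is used); such primes exist by a theorem on the divisors of the numbers
`(1 - σ) x` in cyclotomic extensions. In a cyclic extension `H` which is ramified only at `𝔮` the number of generators of
the group of the units which are close to `1` above `S`, modulo powers, is then bounded (ambiguous classes, Hilbert's
theorem 90), and each layer for which the conjecture fails makes a contribution.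
-/

set_option autoImplicit false

namespace Pool.Agent.Results.MP_fc6b1e_nt.RamifiedAtOnePrime

open NumberField IsDedekindDomain Module
open Pool.Agent.W289.SL (IsCMType SigmaLeopoldt)
open Pool.Agent.H637R2.Leo (Leopoldt)

section

variable {p : ℕ} [Fact p.Prime] {K : Type} [Field K] [NumberField K]

/-- `p` is unramified in `K`: the ideal `p 𝓞_K` is a product of different primes -/
def UnramifiedPrime (p : ℕ) (K : Type) [Field K] [NumberField K] : Prop := (Ideal.span {(p : 𝓞 K)}).IsRadical

/-- `S` is a union of sets of embeddings which belong to places of `K` above `p` (a CM type with this property is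
`p`-ordinary: the places defined by `S` and by the complement `S ∘ c` are disjoint) -/
def Ordinary (S : Set (K →+* ℂ_[p])) : Prop :=
  ∀ σ ∈ S, ∀ τ : K →+* ℂ_[p], (∀ x : K, ‖τ x‖ = ‖σ x‖) → τ ∈ S

/-- `H / K` is unramified at all finite primes `v ≠ 𝔮`: no prime `w` of `H` above `v` divides `v` twice -/
def UnramifiedOutside (𝔮 : HeightOneSpectrum (𝓞 K)) (H : Type) [Field H] [NumberField H] [Algebra K H] : Prop :=
  ∀ v : HeightOneSpectrum (𝓞 K), v ≠ 𝔮 → ∀ w : HeightOneSpectrum (𝓞 H), w.under (𝓞 K) = v →
    ¬ v.asIdeal.map (algebraMap (𝓞 K) (𝓞 H)) ≤ w.asIdeal ^ 2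

/-- `H / K` is a cyclic extension of degree `p ^ m` -/
def CyclicOfDegree (p m : ℕ) (K H : Type) [Field K] [Field H] [Algebra K H] : Prop :=
  IsGalois K H ∧ (∃ g : H ≃ₐ[K] H, ∀ h : H ≃ₐ[K] H, h ∈ Subgroup.zpowers g) ∧ finrank K H = p ^ m

/-- The `Σ`-Leopoldt conjecture, for the set `S` of embeddings of `K`, holds for all the characters of order `p ^ j` of
`Gal(H / K)`: these are the faithful characters of the Galois group of the subextension `E / K` of degree `p ^ j`. -/
def HoldsAt (S : Set (K →+* ℂ_[p])) (H : Type) [Field H] [NumberField H] [Algebra K H] (j : ℕ) : Prop :=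
  ∀ E : IntermediateField K H, finrank K E = p ^ j → ∀ χ : (E ≃ₐ[K] E) →* ℂ_[p]ˣ, Function.Injective χ →
    SigmaLeopoldt p K E S χ

/-- The conclusion: there is `W` such that for every `m` and every finite set `B` of primes of `K` there is a prime `𝔮 ∉ B`
which does not divide `p` such that
(a) there is a cyclic extension `H / K` of degree `p ^ m'`, `m' ≥ m`, unramified outside `𝔮`;
(b) for all cyclic extensions `H / K` of degree `p ^ m'` which are unramified outside `𝔮` the conjecture holds for the
characters of order `p ^ j` for all but at most `W` of the `j = 1, …, m'`;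
(c) for some `j ≥ m` there is a cyclic extension `E / K` of degree `p ^ j`, unramified outside `𝔮`, such that the
conjecture holds for all faithful characters `χ` of `Gal(E / K)`. -/
def Conclusion (p : ℕ) [Fact p.Prime] (K : Type) [Field K] [NumberField K] (S : Set (K →+* ℂ_[p])) : Prop :=
  ∃ W : ℕ, ∀ (m : ℕ) (B : Set (HeightOneSpectrum (𝓞 K))), B.Finite →
    ∃ 𝔮 : HeightOneSpectrum (𝓞 K), 𝔮 ∉ B ∧ (p : 𝓞 K) ∉ 𝔮.asIdeal ∧
      (∃ (H : Type) (_ : Field H) (_ : NumberField H) (_ : Algebra K H) (m' : ℕ),
        m ≤ m' ∧ CyclicOfDegree p m' K H ∧ UnramifiedOutside 𝔮 H) ∧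
      (∀ (H : Type) [Field H] [NumberField H] [Algebra K H] (m' : ℕ),
        CyclicOfDegree p m' K H → UnramifiedOutside 𝔮 H →
          {j : ℕ | 1 ≤ j ∧ j ≤ m' ∧ ¬ HoldsAt S H j}.ncard ≤ W) ∧
      ∃ (j : ℕ) (E : Type) (_ : Field E) (_ : NumberField E) (_ : Algebra K E),
        m ≤ j ∧ CyclicOfDegree p j K E ∧ UnramifiedOutside 𝔮 E ∧
          ∀ χ : (E ≃ₐ[K] E) →* ℂ_[p]ˣ, Function.Injective χ → SigmaLeopoldt p K E S χ

end

section

variable {p : ℕ} [Fact p.Prime] {K H : Type} [Field K] [NumberField K] [Field H] [NumberField H] [Algebra K H]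

/-- subextensions are unramified outside `𝔮` -/
theorem unram_sub {𝔮 : HeightOneSpectrum (𝓞 K)} (h : UnramifiedOutside 𝔮 H) (E : IntermediateField K H) :
    UnramifiedOutside 𝔮 E := by
  intro v hv
  exact Pool.Agent.Q92.AR.Unramified.sub (F := E) (M := H) (h v hv)

/-- the subextension of degree `p ^ j` -/
theorem cyclic_sub {m : ℕ} (h : CyclicOfDegree p m K H) {j : ℕ} (hj : j ≤ m) :
    ∃ E : IntermediateField K H, CyclicOfDegree p j K E := by
  obtain ⟨hG, ⟨g, hg⟩, hd⟩ := h
  have hp : p.Prime := Fact.out
  have hcard : Nat.card (H ≃ₐ[K] H) = p ^ m := by rw [IsGalois.card_aut_eq_finrank, hd]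
  have hord : orderOf g = p ^ m := by rw [orderOf_eq_card_of_forall_mem_zpowers hg, hcard]
  have hN : Nat.card (Subgroup.zpowers (g ^ p ^ j)) = p ^ (m - j) := by
    rw [Nat.card_zpowers, orderOf_pow, hord, Nat.gcd_eq_right (pow_dvd_pow p hj),
      Nat.pow_div hj hp.pos]
  have hfin : finrank K (IntermediateField.fixedField (Subgroup.zpowers (g ^ p ^ j))) = p ^ j := by
    have h1 := IntermediateField.finrank_fixedField_eq_card (F := K) (E := H) (Subgroup.zpowers (g ^ p ^ j))
    have h2 := finrank_mul_finrank K (IntermediateField.fixedField (Subgroup.zpowers (g ^ p ^ j))) H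
    rw [h1, hN, hd] at h2
    have h3 : p ^ m = p ^ j * p ^ (m - j) := by rw [← pow_add, Nat.add_sub_cancel' hj]
    rw [h3] at h2
    exact Nat.eq_of_mul_eq_mul_right (pow_pos hp.pos _) h2
  have hE := Pool.Agent.Q5.SG.isGalois_layer g hg (IntermediateField.fixedField (Subgroup.zpowers (g ^ p ^ j)))
  refine ⟨IntermediateField.fixedField (Subgroup.zpowers (g ^ p ^ j)), hE,
    ⟨AlgEquiv.restrictNormalHom (IntermediateField.fixedField (Subgroup.zpowers (g ^ p ^ j))) g, fun h' => ?_⟩, hfin⟩
  obtain ⟨h, rfl⟩ := AlgEquiv.restrictNormalHom_surjective (F := K)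
    (K₁ := IntermediateField.fixedField (Subgroup.zpowers (g ^ p ^ j))) H h'
  obtain ⟨i, rfl⟩ := Subgroup.mem_zpowers_iff.1 (hg h)
  rw [map_zpow]
  exact Subgroup.zpow_mem_zpowers _ i

end

/-- the conclusion from Leopoldt's conjecture for `F` -/
theorem main (p : ℕ) [Fact p.Prime] (hp : p ≠ 2) (F K : Type) [Field F] [NumberField F] [Field K] [NumberField K]
    [IsTotallyReal F] [IsTotallyComplex K] [Algebra F K] (hFK : finrank F K = 2) (hK : UnramifiedPrime p K)
    (hL : Leopoldt F p) (S : Set (K →+* ℂ_[p])) (hCM : IsCMType p F K S) (hS : Ordinary S) : Conclusion p K S := by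
  obtain ⟨W, h⟩ := Pool.Agent.H50.SG.main p hp F K hFK hK hL S hCM hS
  refine ⟨W, fun m B hB => ?_⟩
  obtain ⟨𝔮, h1, h2, ⟨H, i1, i2, i3, i4, g, m', h4, h5, h6, h7⟩, h8⟩ := h (m + W + 1) B hB
  have hcyc : CyclicOfDegree p m' K H := ⟨i4, ⟨g, h4⟩, h6⟩
  have hb : ∀ (H : Type) [Field H] [NumberField H] [Algebra K H] (m' : ℕ),
      CyclicOfDegree p m' K H → UnramifiedOutside 𝔮 H →
        {j : ℕ | 1 ≤ j ∧ j ≤ m' ∧ ¬ HoldsAt S H j}.ncard ≤ W := by
    intro H _ _ _ m' hH hr
    obtain ⟨hG, ⟨g, hg⟩, hd⟩ := hH
    have := hG
    exact h8 H g m' hg hd hr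
  refine ⟨𝔮, h1, h2, ⟨H, i1, i2, i3, m', by omega, hcyc, h7⟩, hb, ?_⟩
  have h9 := hb H m' hcyc h7
  obtain ⟨j, hj1, hj2, hj3⟩ : ∃ j, m + 1 ≤ j ∧ j ≤ m + W + 1 ∧ HoldsAt S H j := by
    by_contra hcon
    push Not at hcon
    have h10 : (Finset.Icc (m + 1) (m + W + 1)).card ≤ {j : ℕ | 1 ≤ j ∧ j ≤ m' ∧ ¬ HoldsAt S H j}.ncard := by
      rw [← Set.ncard_coe_finset]
      refine Set.ncard_le_ncard ?_ ((Set.finite_Icc 1 m').subset fun j hj => ⟨hj.1, hj.2.1⟩)
      intro j hj
      rw [Finset.mem_coe, Finset.mem_Icc] at hj
      exact ⟨by omega, by omega, hcon j hj.1 hj.2⟩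
    rw [Nat.card_Icc] at h10
    omega
  obtain ⟨E, hE⟩ := cyclic_sub hcyc (j := j) (by omega)
  exact ⟨j, E, inferInstance, inferInstance, inferInstance, by omega, hE, unram_sub h7 E,
    fun χ hχ => hj3 E hE.2.2 χ hχ⟩

/-- **The `Σ`-Leopoldt conjecture for characters of `p`-power order ramified at one prime.** Let `p` be an odd prime, `F` a
totally real number field, `K` a totally complex quadratic extension of `F` in which `p` is unramified, and `S` a
`p`-ordinary CM type of `K` with values in `ℂ_p`. If Leopoldt's conjecture holds for `F` and `p`, and in particular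
(second part, without a hypothesis) if `F / ℚ` is abelian, then the conclusion holds for `K` and `S`. -/
theorem result (p : ℕ) [Fact p.Prime] (hp : p ≠ 2) (F K : Type) [Field F] [NumberField F] [Field K] [NumberField K]
    [IsTotallyReal F] [IsTotallyComplex K] [Algebra F K] (hFK : finrank F K = 2) (hK : UnramifiedPrime p K)
    (S : Set (K →+* ℂ_[p])) (hCM : IsCMType p F K S) (hS : Ordinary S) :
    (Leopoldt F p → Conclusion p K S) ∧
    (IsGalois ℚ F → (∀ g h : F ≃ₐ[ℚ] F, g * h = h * g) → Conclusion p K S) :=
  ⟨fun hL => main p hp F K hFK hK hL S hCM hS,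
    fun hG hc => main p hp F K hFK hK (Pool.Agent.Y944.LC.bru F p hG hc) S hCM hS⟩

end Pool.Agent.Results.MP_fc6b1e_nt.RamifiedAtOnePrime
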